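import Pool.Agent.P.MP_1e2081_pr.Class

set_option autoImplicit false

namespace Pool.Agent.Results.MP_1e2081_pr.CutoffLinearK

open Pool.Agent.P.MP_1e2081_pr Filter

/-- For `c n ≤ k ≤ (1 - c) n`, cutoff together with a mixing time of order `log n` holds exactly
when `k / n` stays away from `1 / 2` or it is not the case that `d` is a power of two and some
product of the maps `(I + P σ) / 2`, with `σ` in the support of `μ`, vanishes on the vectors of sum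
zero. -/
theorem result (d : ℕ) (hd : 2 ≤ d) (μ : Equiv.Perm (Fin d) → ℝ) (hμ0 : ∀ σ, 0 ≤ μ σ)
    (hμ1 : ∑ σ, μ σ = 1) (hU : (uMat μ).IsIrreducible) (c : ℝ) (hc : 0 < c) (k : ℕ → ℕ)
    (hk : ∀ᶠ n : ℕ in atTop, c * (n : ℝ) ≤ (k n : ℝ) ∧ (k n : ℝ) ≤ (1 - c) * (n : ℝ))
    (π : ∀ n, State d n → ℝ) (hπ : ∀ᶠ n in atTop, IsStationary (jump μ n (k n)) (π n)) :
    ((∀ ε : ℝ, 0 < ε → ε < 1 → Tendsto (fun n : ℕ => tmix (jump μ n (k n)) (π n) ε /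
      tmix (jump μ n (k n)) (π n) (1 - ε)) atTop (nhds 1)) ∧
    ∃ a b : ℝ, 0 < a ∧ 0 < b ∧ ∀ᶠ n : ℕ in atTop,
      a * Real.log (n : ℝ) ≤ tmix (jump μ n (k n)) (π n) (1 / 4) ∧
        tmix (jump μ n (k n)) (π n) (1 / 4) ≤ b * Real.log (n : ℝ)) ↔
    ((∃ c' : ℝ, 0 < c' ∧ ∀ᶠ n : ℕ in atTop, c' * (n : ℝ) ≤ |2 * (k n : ℝ) - (n : ℝ)|) ∨
      ¬ ((∃ j : ℕ, d = 2 ^ j) ∧ ∃ l : List (Equiv.Perm (Fin d)), (∀ σ ∈ l, μ σ ≠ 0) ∧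
        ∀ y : Fin d → ℝ, ∑ i, y i = 0 →
          l.foldl (fun (z : Fin d → ℝ) σ => fun i => (z i + z (σ.symm i)) / 2) y = 0)) := by
  rw [fold_eq, cutoff_iff ⟨hμ0, hμ1⟩ hU hd hc hk hπ]
  exact or_congr Iff.rfl (not_congr ⟨fun ⟨l, h1, h2⟩ =>
    ⟨pow_two_of_kill (by omega) h2, l, h1, h2⟩, fun h => h.2⟩)

end Pool.Agent.Results.MP_1e2081_pr.CutoffLinearK
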