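import Pool.Agent.P.MP_1e2081_pr.Spec

set_option autoImplicit false

namespace Pool.Agent.Results.MP_1e2081_pr.CutoffSmallK

open Pool.Agent.P.MP_1e2081_pr Filter

/-- Cutoff around `n log n / (2 k γ)` for the balanced chain moving `k = o(n)` balls per urn. -/
theorem result (d : ℕ) (_hd : 2 ≤ d) (μ : Equiv.Perm (Fin d) → ℝ) (hμ0 : ∀ σ, 0 ≤ μ σ)
    (hμ1 : ∑ σ, μ σ = 1) (hU : (uMat μ).IsIrreducible) (γ : ℝ)
    (hγ : IsLeast (gapSet (uMat μ)) γ) (k : ℕ → ℕ) (hk1 : ∀ n, 1 ≤ k n)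
    (hk : Tendsto (fun n : ℕ => (k n : ℝ) / (n : ℝ)) atTop (nhds 0))
    (π : ∀ n, State d n → ℝ) (hπ : ∀ᶠ n in atTop, IsStationary (jump μ n (k n)) (π n))
    (ε : ℝ) (hε0 : 0 < ε) (hε1 : ε < 1) :
    Tendsto (fun n : ℕ => tmix (jump μ n (k n)) (π n) ε /
      ((n : ℝ) * Real.log (n : ℝ) / (2 * (k n : ℝ) * γ))) atTop (nhds 1) :=
  cutoff_small ⟨hμ0, hμ1⟩ hU hγ (Eventually.of_forall hk1) hk hπ hε0 hε1

end Pool.Agent.Results.MP_1e2081_pr.CutoffSmallK
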