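import Pool.Agent.P.MP_1e2081_pr.Half

set_option autoImplicit false

namespace Pool.Agent.Results.MP_1e2081_pr.NoCutoffHalf

open Pool.Agent.P.MP_1e2081_pr Filter

/-- If some product of the maps `(I + P σ) / 2`, with `σ` in the support of `μ`, vanishes on the
vectors of sum zero, then for `k = ⌊n / 2⌋` there is no cutoff and the mixing time is bounded along
even `n`. -/
theorem result (d : ℕ) (hd : 2 ≤ d) (μ : Equiv.Perm (Fin d) → ℝ) (hμ0 : ∀ σ, 0 ≤ μ σ)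
    (hμ1 : ∑ σ, μ σ = 1) (hU : (uMat μ).IsIrreducible) (l : List (Equiv.Perm (Fin d)))
    (hl : ∀ σ ∈ l, μ σ ≠ 0) (h0 : ∀ y : Fin d → ℝ, ∑ i, y i = 0 →
      l.foldl (fun (z : Fin d → ℝ) σ => fun i => (z i + z (σ.symm i)) / 2) y = 0)
    (π : ∀ n, State d n → ℝ) (hπ : ∀ᶠ n in atTop, IsStationary (jump μ n (n / 2)) (π n)) :
    (¬ ∀ ε : ℝ, 0 < ε → ε < 1 → Tendsto (fun n : ℕ => tmix (jump μ n (n / 2)) (π n) ε /
      tmix (jump μ n (n / 2)) (π n) (1 - ε)) atTop (nhds 1)) ∧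
    ∃ B : ℝ, ∀ᶠ n : ℕ in atTop, Even n → tmix (jump μ n (n / 2)) (π n) (1 / 4) ≤ B := by
  have e : (fun (z : Fin d → ℝ) (σ : Equiv.Perm (Fin d)) => fun i => (z i + z (σ.symm i)) / 2) =
      fun z σ => Av (1 / 2) σ z := by
    funext z σ i
    simp only [Av, Bv, Pv, Pi.add_apply, Pi.smul_apply, Pi.sub_apply, smul_eq_mul]
    ring
  rw [e] at h0
  obtain ⟨h1, B, h2⟩ := no_cutoff ⟨hμ0, hμ1⟩ hU hd hl h0 hπ
  obtain ⟨N, h2⟩ := eventually_atTop.1 h2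
  refine ⟨h1, B, eventually_atTop.2 ⟨2 * N, fun n hn h => ?_⟩⟩
  obtain ⟨k, rfl⟩ := even_iff_two_dvd.1 h
  exact h2 k (by omega)

end Pool.Agent.Results.MP_1e2081_pr.NoCutoffHalf
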